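import Pool.Agent.ASE.Stmts2

/-!
# Squad ASE, row XIR: the sum of the nonexceptional characters at the regular elements
-/

open scoped BigOperators

noncomputable section

namespace Pool.Agent.PP.SE.H52

open Pool.Agent.Helper51_AWC Pool.Agent.Helper79_WRA Pool.Agent.PP Pool.Agent.PP.KF
open Pool.Agent.PP.K9 Pool.Agent.PP.K9.H97 Pool.Agent.PP.H75 Pool.Agent.PP.T3 Pool.Agent.PP.SO
open Pool.Agent.PP.SD Pool.Agent.PP.SE

attribute [local instance] Ideal.Quotient.field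

/-- linear characters of a finite group: conjugation is inversion -/
theorem lin_conj {V : Type} [CommGroup V] [Finite V] {s : V → ℂ} (hs : s ∈ lin V) (v : V) :
    s v * starRingEnd ℂ (s v) = 1 := by
  have hpow : ∀ n : ℕ, s (v ^ n) = s v ^ n := by
    intro n
    induction n with
    | zero => rw [pow_zero, pow_zero, hs.1]
    | succ n ih => rw [pow_succ, pow_succ, hs.2, ih]
  have h1 : s v ^ Nat.card V = 1 := by
    rw [← hpow, pow_card_eq_one', hs.1]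
  have h2 : ‖s v‖ = 1 := Complex.norm_eq_one_of_pow_eq_one h1 Nat.card_pos.ne'
  rw [Complex.mul_conj, Complex.normSq_eq_norm_sq, h2]
  norm_num

/-- Fourier inversion -/
theorem fou {V : Type} [CommGroup V] [Finite V] [DecidableEq V] (Λ : Finset (V → ℂ)) (K : Finset V)
    (hK1 : (1 : V) ∈ K) (hlin : ∀ s ∈ Λ, s ∈ lin V)
    (hmul : ∀ s ∈ Λ, ∀ s' ∈ Λ, (fun v => s v * starRingEnd ℂ (s' v)) ∈ Λ)
    (hor : ∀ s ∈ Λ, s ≠ (fun _ => 1) → ∑ y ∈ K, s y = 0) (A : (V → ℂ) → ℂ)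
    (hA : ∀ y ∈ K, y ≠ 1 → ∑ s ∈ Λ, A s * starRingEnd ℂ (s y) = 0) (s₀ : V → ℂ) (hs₀ : s₀ ∈ Λ) :
    (K.card : ℂ) * A s₀ = ∑ s ∈ Λ, A s := by
  classical
  have h1 : ∑ y ∈ K, s₀ y * ∑ s ∈ Λ, A s * starRingEnd ℂ (s y) = ∑ s ∈ Λ, A s := by
    rw [Finset.sum_eq_single (1 : V)]
    · rw [(hlin s₀ hs₀).1, one_mul]
      refine Finset.sum_congr rfl fun s hs => ?_
      rw [(hlin s hs).1, map_one, mul_one]
    · intro y hy hy1
      rw [hA y hy hy1, mul_zero]
    · intro h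
      exact absurd hK1 h
  rw [← h1]
  simp_rw [Finset.mul_sum]
  rw [Finset.sum_comm, Finset.sum_eq_single s₀]
  · have h2 : ∀ y ∈ K, s₀ y * (A s₀ * starRingEnd ℂ (s₀ y)) = A s₀ := by
      intro y _
      have := lin_conj (hlin s₀ hs₀) y
      linear_combination A s₀ * this
    rw [Finset.sum_congr rfl h2, Finset.sum_const, nsmul_eq_mul]
  · intro s hs hne
    have h3 : ∀ y ∈ K, s₀ y * (A s * starRingEnd ℂ (s y)) =
        A s * (s₀ y * starRingEnd ℂ (s y)) := by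
      intro y _
      ring
    rw [Finset.sum_congr rfl h3, ← Finset.mul_sum]
    have h4 := hor (fun v => s₀ v * starRingEnd ℂ (s v)) (hmul s₀ hs₀ s hs) (by
      intro h
      apply hne
      funext v
      have h5 := congrFun h v
      have h6 := lin_conj (hlin s hs) v
      have h7 : starRingEnd ℂ (s v) ≠ 0 := by
        intro h8
        rw [h8, mul_zero] at h6
        exact zero_ne_one h6
      exact mul_right_cancel₀ h7 (h6.trans h5.symm))
    rw [h4, mul_zero]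
  · intro h
    exact absurd hs₀ h

theorem xir (gec : GecStmt) (vxo : VxoStmt) : XirStmt := by
  classical
  intro ℓ _ M _ hM hℓ V₀ G _ _ _ _ E₀ hFq B hSd W hW ν hν N e O hLv ψ hψ hψN g hg hreg
  obtain ⟨-, -, hfW, -, -, -, -, -, hst, horb, -, hork, -, -⟩ := gec ℓ V₀ E₀ hFq W hW
  obtain ⟨-, -, -, hv4⟩ := vxo ℓ M hM hℓ V₀ G E₀ hFq B hSd W hW
  have hn : 1 < nS E₀ W := hW.2
  -- finiteness
  have hf1 : {χ | χ ∈ Iv B W ν ∧ χ ∈ N}.Finite := by
    apply Set.finite_of_ncard_ne_zero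
    rw [hLv.cN]
    omega
  have hf2 : {χ | χ ∈ Iv B W ν ∧ χ ∉ N}.Finite := by
    apply Set.Finite.of_finite_image (f := O)
    · apply (hfW.image (orb E₀ W)).subset
      rintro _ ⟨χ, ⟨h1, h2⟩, rfl⟩
      obtain ⟨⟨s, hs, hs1, hO⟩, -⟩ := hLv.vX χ h1 h2
      exact ⟨s, hs, hO.symm⟩
    · rintro χ ⟨h1, h2⟩ χ' ⟨h1', h2'⟩ h
      obtain ⟨⟨s, hs, hs1, hO⟩, -⟩ := hLv.vX χ h1 h2
      obtain ⟨χ₀, -, hu⟩ := hLv.bX s hs hs1
      rw [hu χ ⟨h1, h2, hO⟩, hu χ' ⟨h1', h2', by rw [← h]; exact hO⟩]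
  have hfI : (Iv B W ν).Finite := by
    apply (hf1.union hf2).subset
    intro χ h
    by_cases hN : χ ∈ N
    · exact Or.inl ⟨h, hN⟩
    · exact Or.inr ⟨h, hN⟩
  set I := hfI.toFinset with hI
  have mI : ∀ χ, χ ∈ I ↔ χ ∈ Iv B W ν := fun χ => by rw [hI, Set.Finite.mem_toFinset]
  set Λ := hfW.toFinset with hΛ
  have mL : ∀ s, s ∈ Λ ↔ s ∈ lk W := fun s => by rw [hΛ, Set.Finite.mem_toFinset]
  have hKf : ((kW E₀ W : Subgroup V₀) : Set V₀).Finite := Set.toFinite _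
  set K := hKf.toFinset with hK
  have mK : ∀ y, y ∈ K ↔ y ∈ kW E₀ W := fun y => by
    rw [hK, Set.Finite.mem_toFinset, SetLike.mem_coe]
  -- the orbit sets
  have hOset : ∀ χ ∈ Iv B W ν, χ ∉ N → ∀ s : V₀ → ℂ,
      s ∈ O χ ↔ (s ∈ lk W ∧ s ≠ (fun _ => 1) ∧ O χ = orb E₀ W s) := by
    intro χ h1 h2 s
    obtain ⟨⟨s₁, hs₁, hs11, hO⟩, -⟩ := hLv.vX χ h1 h2
    constructor
    · intro hs
      rw [hO] at hs
      have ho := (horb s₁ hs₁ hs11).2.2 s hs
      obtain ⟨τ, hτ, rfl⟩ := hs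
      have h3 := hst s₁ hs₁ τ hτ
      refine ⟨h3.1, (h3.2 hs11).1, ?_⟩
      rw [hO]
      exact ho.symm
    · rintro ⟨hs, hs1, ho⟩
      rw [ho]
      exact (horb s hs hs1).2.1
  -- the function A
  set A : (V₀ → ℂ) → ℂ := fun s => if s = (fun _ => 1) then
      ∑ χ ∈ I.filter (fun χ => χ ∈ N), (e χ : ℂ) * χ g
    else ∑ χ ∈ I.filter (fun χ => χ ∉ N ∧ O χ = orb E₀ W s), (e χ : ℂ) * χ g with hA
  have hone : (fun _ => 1 : V₀ → ℂ) ∈ Λ := by
    rw [mL]
    exact ⟨⟨rfl, fun _ _ => (mul_one _).symm⟩, fun _ _ => rfl⟩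
  have hvan : ∀ y ∈ K, y ≠ 1 → ∑ s ∈ Λ, A s * starRingEnd ℂ (s y) = 0 := by
    intro y hy hy1
    rw [mK] at hy
    have h0 := hv4 ν hν g hg hreg y hy hy1
    rw [finsum_mem_eq_finite_toFinset_sum _ hfI, ← hI] at h0
    rw [← h0, ← Finset.add_sum_erase _ _ hone,
      ← Finset.sum_filter_add_sum_filter_not I (fun χ => χ ∈ N)]
    congr 1
    · simp only [hA, if_true]
      rw [map_one, mul_one]
      refine Finset.sum_congr rfl fun χ hχ => ?_
      rw [Finset.mem_filter, mI] at hχ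
      rw [hLv.vN χ hχ.1 hχ.2 y hy hy1]
      have hc : starRingEnd ℂ ((e χ : ℤ) : ℂ) = ((e χ : ℤ) : ℂ) := map_intCast _ _
      rw [hc]
      ring
    · have hL1 : ∀ s ∈ Λ.erase (fun _ => 1), A s * starRingEnd ℂ (s y) =
          ∑ χ ∈ I.filter (fun χ => χ ∉ N), if O χ = orb E₀ W s then
            (e χ : ℂ) * χ g * starRingEnd ℂ (s y) else 0 := by
        intro s hs
        rw [Finset.mem_erase] at hs
        simp only [hA, if_neg hs.1]
        rw [Finset.sum_mul, ← Finset.sum_filter, Finset.filter_filter]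
      rw [Finset.sum_congr rfl hL1, Finset.sum_comm]
      refine Finset.sum_congr rfl fun χ hχ => ?_
      rw [Finset.mem_filter, mI] at hχ
      have hfO : (O χ).Finite := hfW.subset fun s hs => ((hOset χ hχ.1 hχ.2 s).mp hs).1
      have hval := (hLv.vX χ hχ.1 hχ.2).2 y hy hy1
      rw [finsum_mem_eq_finite_toFinset_sum _ hfO] at hval
      rw [hval, map_mul, map_sum, map_intCast, Finset.mul_sum, Finset.mul_sum, ← Finset.sum_filter]
      refine Finset.sum_congr ?_ fun s _ => by ring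
      ext s
      rw [Finset.mem_filter, Finset.mem_erase, mL, Set.Finite.mem_toFinset, hOset χ hχ.1 hχ.2 s]
      tauto
  -- the inversion
  have hinv := fou Λ K (by rw [mK]; exact one_mem _) (fun s hs => ((mL s).mp hs).1) (by
    intro s hs s' hs'
    rw [mL] at hs hs' ⊢
    refine ⟨⟨?_, ?_⟩, ?_⟩
    · show s 1 * starRingEnd ℂ (s' 1) = 1
      rw [hs.1.1, hs'.1.1, map_one, one_mul]
    · intro v w
      show s (v * w) * starRingEnd ℂ (s' (v * w)) =
        s v * starRingEnd ℂ (s' v) * (s w * starRingEnd ℂ (s' w))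
      rw [hs.1.2, hs'.1.2, map_mul]
      ring
    · intro w hw
      show s w * starRingEnd ℂ (s' w) = 1
      rw [hs.2 w hw, hs'.2 w hw, map_one, one_mul]) (by
    intro s hs hs1
    have h := hork s ((mL s).mp hs) hs1
    rw [finsum_mem_eq_finite_toFinset_sum _ hKf, ← hK] at h
    exact h) A hvan
  obtain ⟨⟨s, hs, hs1, hO⟩, -⟩ := hLv.vX ψ hψ hψN
  have hc : (K.card : ℂ) ≠ 0 := by
    rw [Nat.cast_ne_zero, Finset.card_ne_zero]
    exact ⟨1, by rw [mK]; exact one_mem _⟩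
  have heq : A (fun _ => 1) = A s := by
    have h1 := hinv (fun _ => 1) hone
    have h2 := hinv s ((mL s).mpr hs)
    exact mul_left_cancel₀ hc (h1.trans h2.symm)
  have hA1 : A (fun _ => 1) = ∑ᶠ χ ∈ {χ | χ ∈ Iv B W ν ∧ χ ∈ N}, (e χ : ℂ) * χ g := by
    rw [finsum_mem_eq_finite_toFinset_sum _ hf1]
    simp only [hA, if_true]
    refine Finset.sum_congr ?_ fun _ _ => rfl
    ext χ
    rw [Finset.mem_filter, mI, Set.Finite.mem_toFinset, Set.mem_setOf_eq]
  have hAs : A s = e ψ * ψ g := by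
    simp only [hA, if_neg hs1]
    obtain ⟨χ₀, -, hu⟩ := hLv.bX s hs hs1
    have hset : I.filter (fun χ => χ ∉ N ∧ O χ = orb E₀ W s) = {ψ} := by
      ext χ
      rw [Finset.mem_filter, mI, Finset.mem_singleton]
      constructor
      · rintro ⟨h1, h2, h3⟩
        rw [hu χ ⟨h1, h2, h3⟩, hu ψ ⟨hψ, hψN, hO⟩]
      · rintro rfl
        exact ⟨hψ, hψN, hO⟩
    rw [hset, Finset.sum_singleton]
  rw [← hA1, heq, hAs]

end Pool.Agent.PP.SE.H52
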