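import Pool.Agent.ASE.Stmts9
import Pool.Agent.Helper20_PP.Nls
import Pool.Agent.Helper75_PP.Quo

/-!
# Squad ASE, row SXL: the numbers `Lam`, the exponent
-/

open scoped BigOperators

noncomputable section

namespace Pool.Agent.PP.SE.H52

open Pool.Agent.Helper51_AWC Pool.Agent.Helper79_WRA Pool.Agent.PP Pool.Agent.PP.KF
open Pool.Agent.PP.K9 Pool.Agent.PP.K9.H97 Pool.Agent.PP.H75 Pool.Agent.PP.T3 Pool.Agent.PP.SO
open Pool.Agent.PP.SD Pool.Agent.PP.SE

attribute [local instance] Ideal.Quotient.field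

theorem sxl : SxlStmt := by
  intro ℓ hℓ M hMx hM V₀ G S _ _ _ _ _ _ E₀ hFq B hSb q φ hSx hφ
  have hF : GoodF ℓ (FF M) := H50.fld ℓ hℓ.out M hM
  refine ⟨?_, ?_⟩
  · intro E₁ hE
    have hφt : ∀ t : Tg B.i.range B.g, (t : G) ∈ TE B E₁ ↔ q t ∈ E₁.comap φ := by
      intro t
      rw [Subgroup.mem_comap]
      constructor
      · rintro ⟨_, σ, hσ, h⟩
        have : φ (q t) = σ := by
          apply MulEquiv.ext
          intro v
          apply hSb.inj
          rw [← hSx.act t v, h v]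
        rw [this]
        exact hσ
      · intro h
        exact ⟨t.2, φ (q t), h, hSx.act t⟩
    let p : TE B E₁ →* E₁.comap φ :=
      { toFun := fun t => ⟨q ⟨t.1, t.2.1⟩, (hφt ⟨t.1, t.2.1⟩).mp t.2⟩
        map_one' := Subtype.ext (map_one q)
        map_mul' := fun a b => Subtype.ext (map_mul q ⟨a.1, a.2.1⟩ ⟨b.1, b.2.1⟩) }
    have hp : Function.Surjective p := by
      rintro ⟨s, hs⟩
      obtain ⟨t, rfl⟩ := hSx.sur s
      exact ⟨⟨t.1, (hφt t).mpr hs⟩, rfl⟩
    have hk : IsPGroup ℓ p.ker := by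
      rintro ⟨t, ht⟩
      refine ⟨1, ?_⟩
      have h1 : q ⟨t.1, t.2.1⟩ = 1 := congrArg Subtype.val (MonoidHom.mem_ker.mp ht)
      obtain ⟨v, hv⟩ := (hSx.ker _).mp h1
      apply Subtype.ext
      apply Subtype.ext
      show (t : G) ^ ℓ ^ 1 = 1
      have hv' : B.i v = (t : G) := hv
      rw [pow_one, ← hv', ← map_pow, hFq.ex, map_one]
    have h1 : ln (fun t : TE B E₁ => B.g t) = ln (push p (fun t : TE B E₁ => B.g t)) :=
      cnt_push H20.nls hF hp hk _
    have h2 : push p (fun t : TE B E₁ => B.g t) =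
        fun t : E₁.comap φ => push q (fun t => B.g t) t := by
      funext y
      unfold push
      refine finsum_mem_eq_of_bijOn (s := {x : TE B E₁ | p x = y})
        (t := {x : Tg B.i.range B.g | q x = y}) (fun x => ⟨x.1, x.2.1⟩) ⟨?_, ?_, ?_⟩ ?_
      · intro x hx
        exact congrArg Subtype.val hx
      · intro x _ x' _ h
        exact Subtype.ext (congrArg (fun z : Tg B.i.range B.g => (z : G)) h)
      · intro t ht
        have ht' : q t = y := ht
        refine ⟨⟨t.1, (hφt t).mpr (by rw [ht']; exact y.2)⟩, ?_, rfl⟩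
        exact Subtype.ext ht'
      · intro x _
        rfl
    unfold Lam
    rw [h1, h2]
  · rintro r hr ⟨m, hPE⟩ s ⟨n, hs⟩
    obtain ⟨t, rfl⟩ := hSx.sur s
    have ho : orderOf (t : G) ≠ 0 := (orderOf_pos _).ne'
    obtain ⟨a, b, hb, hab⟩ := Nat.exists_eq_pow_mul_and_not_dvd ho ℓ hℓ.out.one_lt.ne'
    have hb0 : 0 < b := Nat.pos_of_ne_zero fun h => hb (h ▸ dvd_zero _)
    have h1 : ((t : G) ^ b) ^ ℓ ^ r = 1 := by
      refine (hPE.el _ ⟨a, ?_⟩).2
      rw [← pow_mul, mul_comm, ← hab, pow_orderOf_eq_one]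
    have h2 : ℓ ^ a ∣ ℓ ^ r := by
      rw [← pow_mul] at h1
      have h3 := orderOf_dvd_of_pow_eq_one h1
      rw [hab, mul_comm (ℓ ^ a) b] at h3
      exact Nat.dvd_of_mul_dvd_mul_left hb0 h3
    obtain ⟨c, -, hc⟩ := (Nat.dvd_prime_pow hℓ.out).mp (orderOf_dvd_of_pow_eq_one hs)
    have h4 : orderOf (q t) ∣ ℓ ^ a * b := by
      rw [← hab, Subgroup.orderOf_coe]
      exact orderOf_map_dvd q t
    rw [hc] at h4
    have h5 : Nat.Coprime (ℓ ^ c) b := Nat.Coprime.pow_left c ((Nat.Prime.coprime_iff_not_dvd hℓ.out).mpr hb)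
    have h6 : ℓ ^ c ∣ ℓ ^ a := h5.dvd_of_dvd_mul_right h4
    apply orderOf_dvd_iff_pow_eq_one.mp
    rw [hc]
    exact h6.trans h2

end Pool.Agent.PP.SE.H52
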